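import Pool.Agent.R372.ZF

/-!
# MP_cfc379_co, Q1: the equality `M(G) = Z(G)` fails for connected bipartite graphs with one side
of degree three

Counterexamples: the incidence graph of the Fano plane with every line repeated `t ≥ 9` times.
-/

namespace Pool.Agent.Results.MP_cfc379_co.RepeatedFano

open Pool.Agent.R372.ZF

/-- Negative answer to Q1, with arbitrarily large counterexamples: for every `N` there is a
connected bipartite graph `G` with at least `N` vertices and with bipartition `X ∪ Y`,
`|X| ≥ |Y|`, all vertices of `X` of degree exactly `3`, and `M(G) < Z(G)`. -/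
theorem result : ∀ N : ℕ, ∃ (V : Type) (_ : Fintype V) (G : SimpleGraph V) (X Y : Finset V),
    N ≤ Fintype.card V ∧
    Disjoint X Y ∧ (∀ v, v ∈ X ∨ v ∈ Y) ∧
    (∀ a b, G.Adj a b → (a ∈ X ∧ b ∈ Y) ∨ (a ∈ Y ∧ b ∈ X)) ∧
    G.Connected ∧
    Y.card ≤ X.card ∧
    (∀ x ∈ X, {y | G.Adj x y}.ncard = 3) ∧
    maxNullity G < zeroForcingNumber G := by
  classical
  intro N
  let t := N + 9
  refine ⟨(Fin 7 × Fin t) ⊕ Fin 7, inferInstance, fanoGraph t,
    Finset.univ.map ⟨Sum.inl, Sum.inl_injective⟩, Finset.univ.map ⟨Sum.inr, Sum.inr_injective⟩,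
    ?_, ?_, ?_, ?_, connected t (by omega), ?_, ?_, ?_⟩
  · simp only [Fintype.card_sum, Fintype.card_prod, Fintype.card_fin]
    omega
  · rw [Finset.disjoint_left]
    intro a ha hb
    simp only [Finset.mem_map, Finset.mem_univ, true_and, Function.Embedding.coeFn_mk] at ha hb
    obtain ⟨x, rfl⟩ := ha
    obtain ⟨y, hy⟩ := hb
    exact absurd hy (by simp)
  · intro v
    rcases v with v | v <;> simp
  · intro a b h
    rcases a with a | a <;> rcases b with b | b
    · exact absurd h (by simp [fanoGraph])
    · left; simp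
    · right; simp
    · exact absurd h (by simp [fanoGraph])
  · simp only [Finset.card_map, Finset.card_univ, Fintype.card_prod, Fintype.card_fin]
    omega
  · intro x hx
    simp only [Finset.mem_map, Finset.mem_univ, true_and, Function.Embedding.coeFn_mk] at hx
    obtain ⟨x, rfl⟩ := hx
    exact deg_three t x
  · have h1 := maxNullity_le t (by omega)
    have h2 := zeroForcing_ge t
    omega

end Pool.Agent.Results.MP_cfc379_co.RepeatedFano
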